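import Pool.Agent.KS6_47.PRL.Base

/-!
# Universal integer factorisations behind primitive linear relations
-/

set_option autoImplicit false

namespace Pool.Agent.Results.MP_22c17e_co.Universal

open Finset Pool.Agent.KS6_47.PRL.Base

universe u

/-- `M` is an `L`-matrix: zero diagonal, all off-diagonal entries in `L`. -/
def IsLMat {F : Type u} [Field F] (L : Finset F) {n : ℕ} (M : Matrix (Fin n) (Fin n) F) : Prop :=
  (∀ i, M i i = 0) ∧ ∀ i j, i ≠ j → M i j ∈ L

/-- `NN r L` is the largest `n` such that there is an `n × n` `L`-matrix of rank at most `r`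
(the set of such `n` is bounded when `0 ∉ L`, which is part of the result). -/
noncomputable def NN {F : Type u} [Field F] (r : ℕ) (L : Finset F) : ℕ :=
  sSup {n : ℕ | ∃ M : Matrix (Fin n) (Fin n) F, IsLMat L M ∧ M.rank ≤ r}

/-- `L` admits a primitive linear relation: integers `A a` (`a ∈ L`) with
`∑ A a * a = 0` in `F` and `∑ A a = 1`. -/
def Primitive {F : Type u} [Field F] (L : Finset F) : Prop :=
  ∃ A : F → ℤ, ∑ a ∈ L, (A a : F) * a = 0 ∧ ∑ a ∈ L, A a = 1

/-- For the integer vector `A` there is a colouring of the ordered pairs from an `n`-element set by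
`k` colours, such that the `k` integer matrices `R_g` (`A g` on the diagonal, off the diagonal the
indicator of the colour `g`) have a common left factor `X` with `r` columns. -/
def Factors {k : ℕ} (A : Fin k → ℤ) (n r : ℕ) : Prop :=
  ∃ (col : Fin n → Fin n → Fin k) (X : Fin n → Fin r → ℤ) (Y : Fin k → Fin r → Fin n → ℤ),
    ∀ g i j, ∑ l, X i l * Y g l j = if i = j then A g else if col i j = g then 1 else 0

/-- Common left factors. -/
lemma common {k s : ℕ} {P : Type} (R : Fin k → P → P → ℤ) (h : ∀ g, LR s (R g)) :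
    ∃ (I : Type) (_ : Fintype I), Fintype.card I ≤ k * s ∧
      ∃ (X : P → I → ℤ) (Y : Fin k → I → P → ℤ), ∀ g p q, R g p q = ∑ i, X p i * Y g i q := by
  classical
  choose I fI hI X Y hXY using h
  refine ⟨Σ g, I g, inferInstance, ?_, fun p i => X i.1 p i.2,
    fun g i q => if i.1 = g then Y i.1 i.2 q else 0, ?_⟩
  · rw [Fintype.card_sigma]
    calc ∑ g, Fintype.card (I g) ≤ ∑ _g : Fin k, s := Finset.sum_le_sum fun g _ => hI g
      _ = k * s := by simp
  · intro g p q
    rw [Fintype.sum_sigma, Finset.sum_eq_single g]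
    · simp [hXY]
    · intro b _ hb
      simp [hb]
    · simp

/-- Transport to `Fin n` and padding to exactly `r` columns. -/
lemma factors_of {k : ℕ} (A : Fin k → ℤ) {P I : Type} [Fintype P] [DecidableEq P] [Fintype I]
    (c : P → P → Fin k) (X : P → I → ℤ) (Y : Fin k → I → P → ℤ)
    (hXY : ∀ g p q, Rm A c g p q = ∑ i, X p i * Y g i q) (n r : ℕ) (hn : Fintype.card P = n)
    (hr : Fintype.card I ≤ r) : Factors A n r := by
  classical
  have e : Fin n ≃ P := (Fintype.equivFinOfCardEq hn).symm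
  obtain ⟨f⟩ : Nonempty (I ↪ Fin r) := by
    rw [Function.Embedding.nonempty_iff_card_le]
    simpa using hr
  refine ⟨fun i j => c (e i) (e j), fun i l => ∑ t, if f t = l then X (e i) t else 0,
    fun g l j => ∑ t, if f t = l then Y g t (e j) else 0, ?_⟩
  intro g i j
  have h1 : (∑ l : Fin r, (∑ t, if f t = l then X (e i) t else 0) *
      (∑ t, if f t = l then Y g t (e j) else 0)) = ∑ t, X (e i) t * Y g t (e j) := by
    have h2 : ∀ l : Fin r, (∑ t, if f t = l then X (e i) t else 0) *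
        (∑ t, if f t = l then Y g t (e j) else 0) =
        ∑ t, if f t = l then X (e i) t * Y g t (e j) else 0 := by
      intro l
      rw [Finset.sum_mul]
      refine Finset.sum_congr rfl fun t _ => ?_
      by_cases ht : f t = l
      · simp only [ht, if_true]
        congr 1
        rw [Finset.sum_eq_single t]
        · simp [ht]
        · intro b _ hb
          rw [if_neg]
          intro hbl
          exact hb (f.injective (hbl.trans ht.symm))
        · simp
      · simp [ht]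
    rw [Finset.sum_congr rfl fun l _ => h2 l, Finset.sum_comm]
    refine Finset.sum_congr rfl fun t _ => ?_
    rw [Finset.sum_ite_eq]
    simp
  rw [h1, ← hXY]
  unfold Rm
  simp only [e.injective.eq_iff]

/-- Every integer vector with sum one has such factorisations with `n ≥ c r ^ 2`. -/
theorem universal {k : ℕ} (A : Fin k → ℤ) (hA : ∑ i, A i = 1) :
    ∃ c : ℝ, 0 < c ∧ ∃ r₀ : ℕ, ∀ r : ℕ, r₀ ≤ r → ∃ n : ℕ, c * (r : ℝ) ^ 2 ≤ (n : ℝ) ∧
      Factors A n r := by
  obtain ⟨h, K, hh, H⟩ := good_all A hA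
  set C : ℕ := k * K + 1 with hC
  have main : ∀ m r : ℕ, 1 ≤ m → C * m ^ h ≤ r → Factors A (m ^ (2 * h)) r := by
    intro m r hm hr
    obtain ⟨P, fP, dP, hcard, c, hc⟩ := H m hm
    obtain ⟨I, fI, hI, X, Y, hXY⟩ := common (Rm A c) hc
    refine factors_of A c X Y hXY _ r hcard (hI.trans (le_trans ?_ hr))
    rw [hC, ← mul_assoc]
    exact Nat.mul_le_mul_right _ (Nat.le_succ _)
  refine ⟨1 / ((C : ℝ) ^ 2 * 4 ^ h), by positivity, C, ?_⟩
  intro r hr
  set m := Nat.findGreatest (fun m => C * m ^ h ≤ r) r with hm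
  have hCpos : 0 < C := Nat.succ_pos _
  have h1 : C * 1 ^ h ≤ r := by rw [one_pow, mul_one]; exact hr
  have hm1 : 1 ≤ m := Nat.le_findGreatest (by omega) h1
  have hm2 : C * m ^ h ≤ r := Nat.findGreatest_spec (P := fun m => C * m ^ h ≤ r)
    (m := 1) (by omega) h1
  have hm3 : r < C * (m + 1) ^ h := by
    by_contra hcon
    rw [not_lt] at hcon
    have hle : m + 1 ≤ r := by
      calc m + 1 ≤ (m + 1) ^ h := Nat.le_self_pow (by omega) _
        _ ≤ C * (m + 1) ^ h := Nat.le_mul_of_pos_left _ hCpos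
        _ ≤ r := hcon
    have := Nat.le_findGreatest (P := fun m => C * m ^ h ≤ r) hle hcon
    omega
  refine ⟨m ^ (2 * h), ?_, main m r hm1 hm2⟩
  have h4 : (r : ℝ) ≤ C * (2 ^ h * (m : ℝ) ^ h) := by
    have h5 : r ≤ C * (2 ^ h * m ^ h) := by
      refine hm3.le.trans (Nat.mul_le_mul_left _ ?_)
      rw [← mul_pow]
      exact Nat.pow_le_pow_left (by omega) h
    exact_mod_cast h5
  have h6 : (r : ℝ) ^ 2 ≤ (C : ℝ) ^ 2 * 4 ^ h * (m : ℝ) ^ (2 * h) := by
    calc (r : ℝ) ^ 2 ≤ (C * (2 ^ h * (m : ℝ) ^ h)) ^ 2 := by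
          apply pow_le_pow_left₀ (by positivity) h4
      _ = (C : ℝ) ^ 2 * 4 ^ h * (m : ℝ) ^ (2 * h) := by
          rw [mul_pow, mul_pow, ← pow_mul, ← pow_mul, mul_comm h 2, pow_mul 2 2 h]
          norm_num
          ring
  rw [Nat.cast_pow, div_mul_eq_mul_div, one_mul, div_le_iff₀ (by positivity)]
  calc (r : ℝ) ^ 2 ≤ (C : ℝ) ^ 2 * 4 ^ h * (m : ℝ) ^ (2 * h) := h6
    _ = (m : ℝ) ^ (2 * h) * ((C : ℝ) ^ 2 * 4 ^ h) := by ring

/-- Specialisation to a relation in an abelian group. -/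
theorem group {k : ℕ} {A : Fin k → ℤ} {n r : ℕ} (hf : Factors A n r)
    {G : Type u} [AddCommGroup G] (α : Fin k → G) (hα : ∑ i, A i • α i = 0) :
    ∃ (M : Fin n → Fin n → G) (X : Fin n → Fin r → ℤ) (W : Fin r → Fin n → G),
      (∀ i, M i i = 0) ∧ (∀ i j, i ≠ j → M i j ∈ Set.range α) ∧
      ∀ i j, M i j = ∑ l, X i l • W l j := by
  obtain ⟨col, X, Y, hXY⟩ := hf
  have key : ∀ i j, ∑ l, X i l • ∑ g, Y g l j • α g =
      ∑ g, (if i = j then A g else if col i j = g then 1 else 0 : ℤ) • α g := by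
    intro i j
    have h1 : ∀ l, X i l • ∑ g, Y g l j • α g = ∑ g, (X i l * Y g l j) • α g := by
      intro l
      rw [Finset.smul_sum]
      exact Finset.sum_congr rfl fun g _ => by rw [mul_smul]
    rw [Finset.sum_congr rfl fun l _ => h1 l, Finset.sum_comm]
    refine Finset.sum_congr rfl fun g _ => ?_
    rw [← Finset.sum_smul, hXY]
  refine ⟨fun i j => ∑ l, X i l • ∑ g, Y g l j • α g, X, fun l j => ∑ g, Y g l j • α g,
    ?_, ?_, fun i j => rfl⟩
  · intro i
    refine (key i i).trans ?_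
    simpa using hα
  · intro i j hij
    refine ⟨col i j, ?_⟩
    refine Eq.trans ?_ (key i j).symm
    simp only [hij, if_false]
    rw [Finset.sum_eq_single (col i j)]
    · simp
    · intro b _ hb
      rw [if_neg (Ne.symm hb), zero_smul]
    · simp

/-- Rank bound. -/
lemma rank_le {F : Type u} [Field F] {n r : ℕ} (M : Fin n → Fin n → F) (X : Fin n → Fin r → ℤ)
    (W : Fin r → Fin n → F) (h : ∀ i j, M i j = ∑ l, X i l • W l j) :
    (Matrix.of M).rank ≤ r := by
  have h1 : (Matrix.of M : Matrix (Fin n) (Fin n) F) =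
      (Matrix.of (fun i l => (X i l : F)) : Matrix (Fin n) (Fin r) F) * Matrix.of W := by
    ext i j
    simp [Matrix.mul_apply, h, zsmul_eq_mul]
  rw [h1]
  refine (Matrix.rank_mul_le_left _ _).trans ((Matrix.rank_le_card_width _).trans ?_)
  simp

/-- A lower bound for `NN` with constants depending only on the coefficients. -/
theorem field {k : ℕ} {A : Fin k → ℤ} {n r : ℕ} (hf : Factors A n r) {F : Type u} [Field F]
    (L : Finset F) (h0 : (0 : F) ∉ L) (α : Fin k → F) (hαL : ∀ i, α i ∈ L)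
    (hα : ∑ i, (A i : F) * α i = 0) : n ≤ NN r L := by
  obtain ⟨M, X, W, h1, h2, h3⟩ := group hf α (by simpa [zsmul_eq_mul] using hα)
  refine le_csSup (bddAbove_sizes L h0 r) ⟨Matrix.of M, ⟨h1, fun i j hij => ?_⟩, rank_le M X W h3⟩
  obtain ⟨g, hg⟩ := h2 i j hij
  change M i j ∈ L
  rw [← hg]
  exact hαL g

/-- **Universal integer factorisations.** Let `A` be an integer vector of length `k` with sum `1`.
There are `c > 0` and `r₀`, depending only on `A`, such that for every `r ≥ r₀` there is `n ≥ c r²`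
with the following properties.

(1) There are a colouring `col` of the ordered pairs from `{1, …, n}` by `k` colours and integer
matrices `X` (`n × r`) and `Y_1, …, Y_k` (`r × n`) such that for every colour `g` the matrix
`X Y_g` has `A_g` on the diagonal and the indicator of the colour class `g` off the diagonal.

(2) For every abelian group `G` and all `α_1, …, α_k ∈ G` with `∑ A_i α_i = 0` there is an
`n × n` matrix `M = X W` with zero diagonal and with all off-diagonal entries among the `α_i`, where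
`X` is an integer `n × r` matrix and `W` is an `r × n` matrix with entries in `G`.

(3) For every field `F` and every finite `L ⊆ F ∖ {0}` containing `α_1, …, α_k` with
`∑ A_i α_i = 0`, one has `N(r, L) ≥ n ≥ c r²` (the constants do not depend on `F` and `L`).

Consequently (Q1) `N(r, L) = Ω(r²)` for every field `F` and every finite `L ⊆ F ∖ {0}` with a
primitive linear relation; the sets whose maxima define `N(r, L)` are bounded. -/
theorem result :
    (∀ (k : ℕ) (A : Fin k → ℤ), ∑ i, A i = 1 →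
      ∃ c : ℝ, 0 < c ∧ ∃ r₀ : ℕ, ∀ r : ℕ, r₀ ≤ r → ∃ n : ℕ, c * (r : ℝ) ^ 2 ≤ (n : ℝ) ∧
        Factors A n r ∧
        (∀ (G : Type u) [AddCommGroup G] (α : Fin k → G), ∑ i, A i • α i = 0 →
          ∃ (M : Fin n → Fin n → G) (X : Fin n → Fin r → ℤ) (W : Fin r → Fin n → G),
            (∀ i, M i i = 0) ∧ (∀ i j, i ≠ j → M i j ∈ Set.range α) ∧
            ∀ i j, M i j = ∑ l, X i l • W l j) ∧
        (∀ (F : Type u) [Field F] (L : Finset F), (0 : F) ∉ L → ∀ α : Fin k → F,
          (∀ i, α i ∈ L) → ∑ i, (A i : F) * α i = 0 → n ≤ NN r L)) ∧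
    (∀ (F : Type u) [Field F] (L : Finset F), (0 : F) ∉ L →
      (∀ r : ℕ, BddAbove {n : ℕ | ∃ M : Matrix (Fin n) (Fin n) F, IsLMat L M ∧ M.rank ≤ r}) ∧
      (Primitive L → ∃ c : ℝ, 0 < c ∧ ∃ r₀ : ℕ, ∀ r : ℕ, r₀ ≤ r →
        c * (r : ℝ) ^ 2 ≤ (NN r L : ℝ))) := by
  classical
  have main : ∀ (k : ℕ) (A : Fin k → ℤ), ∑ i, A i = 1 →
      ∃ c : ℝ, 0 < c ∧ ∃ r₀ : ℕ, ∀ r : ℕ, r₀ ≤ r → ∃ n : ℕ, c * (r : ℝ) ^ 2 ≤ (n : ℝ) ∧
        Factors A n r ∧
        (∀ (G : Type u) [AddCommGroup G] (α : Fin k → G), ∑ i, A i • α i = 0 →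
          ∃ (M : Fin n → Fin n → G) (X : Fin n → Fin r → ℤ) (W : Fin r → Fin n → G),
            (∀ i, M i i = 0) ∧ (∀ i j, i ≠ j → M i j ∈ Set.range α) ∧
            ∀ i j, M i j = ∑ l, X i l • W l j) ∧
        (∀ (F : Type u) [Field F] (L : Finset F), (0 : F) ∉ L → ∀ α : Fin k → F,
          (∀ i, α i ∈ L) → ∑ i, (A i : F) * α i = 0 → n ≤ NN r L) := by
    intro k A hA
    obtain ⟨c, hc, r₀, h⟩ := universal A hA
    refine ⟨c, hc, r₀, fun r hr => ?_⟩
    obtain ⟨n, hn, hf⟩ := h r hr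
    exact ⟨n, hn, hf, fun G _ α hα => group hf α hα,
      fun F _ L h0 α hαL hα => field hf L h0 α hαL hα⟩
  refine ⟨main, fun F _ L h0 => ⟨fun r => bddAbove_sizes L h0 r, ?_⟩⟩
  rintro ⟨A, hA0, hA1⟩
  let ε : L ≃ Fin L.card := L.equivFin
  have hB : ∑ i, A (ε.symm i) = 1 := by
    rw [← hA1, ← Finset.sum_coe_sort L A]
    exact Equiv.sum_comp ε.symm (fun a : L => A a)
  obtain ⟨c, hc, r₀, h⟩ := main L.card (fun i => A (ε.symm i)) hB
  refine ⟨c, hc, r₀, fun r hr => ?_⟩
  obtain ⟨n, hn, -, -, hF⟩ := h r hr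
  refine hn.trans (Nat.cast_le.mpr (hF F L h0 (fun i => (ε.symm i : F)) (fun i => (ε.symm i).2) ?_))
  rw [Equiv.sum_comp ε.symm (fun a : L => ((A a : ℤ) : F) * (a : F)),
    Finset.sum_coe_sort L (fun a => ((A a : ℤ) : F) * a)]
  exact hA0

end Pool.Agent.Results.MP_22c17e_co.Universal
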